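import Pool.Agent.Helper44_Art.Stmt4
import Pool.Agent.Helper44_Art.Fin1

set_option autoImplicit false

/-!
Squad ART, wave 3, module FREE: free groups of finite rank are residually finite.
-/

namespace Art
namespace H69

/-- the Coxeter matrix with all labels infinite -/
def freeMat (n : ℕ) : CoxeterMatrix (Fin n) where
  M := Matrix.of fun i j => if i = j then 1 else 0
  isSymm := by
    ext i j
    simp [Matrix.transpose_apply, eq_comm]
  diagonal i := by simp
  off_diagonal i j h := by simp [h]

theorem freeMat_ne {n : ℕ} {i j : Fin n} (h : i ≠ j) : (freeMat n).M i j = 0 := by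
  simp [freeMat, h]

theorem free : FreeStmt := by
  intro n
  have hG : RF (Gp (freeMat n)) := H44.triFreeP (freeMat n) fun x y _ hxy _ _ =>
    Or.inl (freeMat_ne hxy)
  obtain ⟨Ψ, hΨ⟩ := lift (freeMat n) (FreeGroup.of : Fin n → FreeGroup (Fin n)) (by
    intro s t hst
    by_cases h : s = t
    · rw [h]
    · exact absurd (freeMat_ne h) hst)
  refine H51.rf_of_injective (FreeGroup.lift (gen (freeMat n))) ?_ hG
  have h1 : Ψ.comp (FreeGroup.lift (gen (freeMat n))) = MonoidHom.id _ := by
    apply FreeGroup.ext_hom
    intro i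
    simp [hΨ]
  intro x y hxy
  have h2 := congrArg Ψ hxy
  have h3 : ∀ z, Ψ (FreeGroup.lift (gen (freeMat n)) z) = z := fun z => by
    have := DFunLike.congr_fun h1 z
    simpa using this
  rwa [h3, h3] at h2

end H69
end Art
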