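import Pool.Agent.Helper44_Art.Stmt4
import Pool.Agent.Helper44_Art.Api
import Pool.Agent.Helper51_Art.Dih

set_option autoImplicit false

/-!
Squad ART, wave 3, module T333: the Artin group of affine type `A₂` embeds into the one of type
`B₃`.
-/

namespace Art
namespace H69

/-- type `B₃`: `0 - 1` with label 3, `1 - 2` with label 4 -/
def b3 : CoxeterMatrix (Fin 3) where
  M := !![1, 3, 2; 3, 1, 4; 2, 4, 1]
  isSymm := by decide
  diagonal := by decide
  off_diagonal i j h := by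
    fin_cases i <;> fin_cases j <;> simp_all

theorem alt_three {G : Type} [Monoid G] (a b : G) : alt 3 a b = a * b * a := by
  rw [alt_succ, alt_two, mul_assoc]

theorem alt_four {G : Type} [Monoid G] (a b : G) : alt 4 a b = a * b * a * b := by
  rw [alt_succ, alt_three]
  simp [mul_assoc]

section ids

variable {H : Type} [Group H]

theorem braid_inv {x y : H} (h : x * y * x = y * x * y) : x * y⁻¹ * x⁻¹ = y⁻¹ * x⁻¹ * y := by
  rw [← mul_inv_eq_one]
  calc x * y⁻¹ * x⁻¹ * (y⁻¹ * x⁻¹ * y)⁻¹ = x * (y * x * y)⁻¹ * x * y := by group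
    _ = x * (x * y * x)⁻¹ * x * y := by rw [h]
    _ = 1 := by group

/-- relation `a c = c a` -/
theorem id_ac {x1 x2 P : H} (h : x1 * x2 * x1 = x2 * x1 * x2) (h1 : P * x1 = x2 * P) :
    x2 * (P * (x1 * x2)⁻¹) = P * (x1 * x2)⁻¹ * x2 := by
  have h2 := braid_inv h
  calc x2 * (P * (x1 * x2)⁻¹) = x2 * P * (x1 * x2)⁻¹ := by group
    _ = P * x1 * (x1 * x2)⁻¹ := by rw [h1]
    _ = P * (x1 * x2⁻¹ * x1⁻¹) := by group
    _ = P * (x2⁻¹ * x1⁻¹ * x2) := by rw [h2]
    _ = P * (x1 * x2)⁻¹ * x2 := by group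

/-- relation `b c b c = c b c b` -/
theorem id_bc {x1 x2 x0 P : H} (h : x1 * x2 * x1 = x2 * x1 * x2) (h1 : P * x1 = x2 * P)
    (h2 : P * x2 = x0 * P) (h3 : P * x0 = x1 * P) :
    x1 * (P * (x1 * x2)⁻¹) * x1 * (P * (x1 * x2)⁻¹)
      = P * (x1 * x2)⁻¹ * x1 * (P * (x1 * x2)⁻¹) * x1 := by
  have e1 : x2⁻¹ * P = P * x1⁻¹ := by
    rw [inv_mul_eq_iff_eq_mul, ← mul_assoc, ← h1, mul_assoc, mul_inv_cancel, mul_one]
  have e2 : x1 * P * P = P * P * x2 := by
    rw [← h3, mul_assoc P x0 P, ← h2, mul_assoc]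
  have r : P * (x1 * x2)⁻¹ * x1 * (P * (x1 * x2)⁻¹) * x1 = P * P * x1⁻¹ * x2⁻¹ := by
    calc P * (x1 * x2)⁻¹ * x1 * (P * (x1 * x2)⁻¹) * x1 = P * (x2⁻¹ * P) * x2⁻¹ := by group
      _ = P * (P * x1⁻¹) * x2⁻¹ := by rw [e1]
      _ = P * P * x1⁻¹ * x2⁻¹ := by group
  calc x1 * (P * (x1 * x2)⁻¹) * x1 * (P * (x1 * x2)⁻¹)
      = x1 * (P * (x1 * x2)⁻¹ * x1 * (P * (x1 * x2)⁻¹) * x1) * x1⁻¹ := by group
    _ = (x1 * P * P) * x1⁻¹ * x2⁻¹ * x1⁻¹ := by rw [r]; group
    _ = P * P * (x2 * (x1 * x2 * x1)⁻¹) := by rw [e2]; group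
    _ = P * P * (x2 * (x2 * x1 * x2)⁻¹) := by rw [h]
    _ = P * P * x1⁻¹ * x2⁻¹ := by group
    _ = _ := r.symm

variable {A B C : H} (hAB : A * B * A = B * A * B) (hBC : B * C * B * C = C * B * C * B)
  (hAC : A * C = C * A)

include hAB hAC in
theorem rho1 : C * B * A * B = A * (C * B * A) := by
  calc C * B * A * B = C * (B * A * B) := by group
    _ = C * (A * B * A) := by rw [hAB]
    _ = (C * A) * B * A := by group
    _ = (A * C) * B * A := by rw [hAC]
    _ = A * (C * B * A) := by group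

include hAB hBC hAC in
theorem rho2 : C * B * A * (C * B * A) * A = B * (C * B * A) * (C * B * A) := by
  calc C * B * A * (C * B * A) * A = C * B * (A * C) * B * A * A := by group
    _ = C * B * (C * A) * B * A * A := by rw [hAC]
    _ = C * B * C * (A * B * A) * A := by group
    _ = C * B * C * (B * A * B) * A := by rw [hAB]
    _ = (C * B * C * B) * A * B * A := by group
    _ = (B * C * B * C) * A * B * A := by rw [hBC]
    _ = B * C * B * (C * A) * B * A := by group
    _ = B * C * B * (A * C) * B * A := by rw [hAC]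
    _ = B * (C * B * A) * (C * B * A) := by group

end ids

theorem t333 (hB : T234Stmt) : T333Stmt := by
  intro S M a b c hab hac hbc hall mab mbc mac
  classical
  have hsym : ∀ x y, M.M x y = M.M y x := fun x y => M.symmetric x y
  have mba : M.M b a = 3 := by rw [hsym, mab]
  have mcb : M.M c b = 3 := by rw [hsym, mbc]
  have mca : M.M c a = 3 := by rw [hsym, mac]
  -- homomorphisms out of `Gp M`
  have key : ∀ {H : Type} [Group H] (x y z : H), x * y * x = y * x * y → y * z * y = z * y * z →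
      x * z * x = z * x * z → ∃ Φ : Gp M →* H, Φ (gen M a) = x ∧ Φ (gen M b) = y ∧
        Φ (gen M c) = z := by
    intro H _ x y z hxy hyz hxz
    obtain ⟨Φ, hΦ⟩ := lift M (fun s => if s = a then x else if s = b then y else z) (by
      intro s t _
      rcases hall s with rfl | rfl | rfl <;> rcases hall t with rfl | rfl | rfl
      · rfl
      · rw [mab, alt_three, alt_three]; simp [hab.symm, hxy]
      · rw [mac, alt_three, alt_three]; simp [hac.symm, hbc.symm, hxz]
      · rw [mba, alt_three, alt_three]; simp [hab.symm, hxy]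
      · rfl
      · rw [mbc, alt_three, alt_three]; simp [hab.symm, hac.symm, hbc.symm, hyz]
      · rw [mca, alt_three, alt_three]; simp [hac.symm, hbc.symm, hxz]
      · rw [mcb, alt_three, alt_three]; simp [hab.symm, hac.symm, hbc.symm, hyz]
      · rfl)
    refine ⟨Φ, ?_, ?_, ?_⟩
    · rw [hΦ]; simp
    · rw [hΦ]; simp [hab.symm]
    · rw [hΦ]; simp [hac.symm, hbc.symm]
  -- the relations in `Gp M`
  have r12 : gen M a * gen M b * gen M a = gen M b * gen M a * gen M b := by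
    have := relHolds M a b (by rw [mab]; norm_num)
    rwa [mab, alt_three, alt_three] at this
  have r20 : gen M b * gen M c * gen M b = gen M c * gen M b * gen M c := by
    have := relHolds M b c (by rw [mbc]; norm_num)
    rwa [mbc, alt_three, alt_three] at this
  have r10 : gen M a * gen M c * gen M a = gen M c * gen M a * gen M c := by
    have := relHolds M a c (by rw [mac]; norm_num)
    rwa [mac, alt_three, alt_three] at this
  have ext3 : ∀ {H : Type} [Group H] (Φ Ψ : Gp M →* H), Φ (gen M a) = Ψ (gen M a) →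
      Φ (gen M b) = Ψ (gen M b) → Φ (gen M c) = Ψ (gen M c) → Φ = Ψ := by
    intro H _ Φ Ψ h1 h2 h3
    apply ext M Φ Ψ
    intro s
    rcases hall s with rfl | rfl | rfl
    · exact h1
    · exact h2
    · exact h3
  -- the rotation
  obtain ⟨R, R1, R2, R3⟩ := key (gen M b) (gen M c) (gen M a) r20 r10.symm r12.symm
  obtain ⟨R', R1', R2', R3'⟩ := key (gen M c) (gen M a) (gen M b) r10.symm r12 r20.symm
  have hRR : R.comp R' = MonoidHom.id _ := by
    apply ext3
    · simp [R1', R3]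
    · simp [R2', R1]
    · simp [R3', R2]
  have hRR' : R'.comp R = MonoidHom.id _ := by
    apply ext3
    · simp [R1, R2']
    · simp [R2, R3']
    · simp [R3, R1']
  let rot : MulAut (Gp M) := MonoidHom.toMulEquiv R R' hRR' hRR
  let φ : Multiplicative ℤ →* MulAut (Gp M) := zpowersHom (MulAut (Gp M)) rot
  have hφ : φ (Multiplicative.ofAdd 1) = rot := by
    simp [φ]
  -- the semidirect product
  set P : Gp M ⋊[φ] Multiplicative ℤ := SemidirectProduct.inr (Multiplicative.ofAdd 1) with hP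
  have hPx : ∀ x : Gp M, P * SemidirectProduct.inl x = SemidirectProduct.inl (R x) * P := by
    intro x
    have h1 := SemidirectProduct.inl_aut (φ := φ) (Multiplicative.ofAdd (1 : ℤ)) x
    rw [hφ] at h1
    have h2 : (rot : Gp M ≃* Gp M) x = R x := rfl
    rw [h2] at h1
    rw [h1, mul_assoc, map_inv, ← hP, inv_mul_cancel, mul_one]
  set x1 : Gp M ⋊[φ] Multiplicative ℤ := SemidirectProduct.inl (gen M a) with hx1
  set x2 : Gp M ⋊[φ] Multiplicative ℤ := SemidirectProduct.inl (gen M b) with hx2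
  set x0 : Gp M ⋊[φ] Multiplicative ℤ := SemidirectProduct.inl (gen M c) with hx0
  have P1 : P * x1 = x2 * P := by rw [hx1, hPx, R1]
  have P2 : P * x2 = x0 * P := by rw [hx2, hPx, R2]
  have P3 : P * x0 = x1 * P := by rw [hx0, hPx, R3]
  have X12 : x1 * x2 * x1 = x2 * x1 * x2 := by
    rw [hx1, hx2, ← map_mul, ← map_mul, ← map_mul, ← map_mul, r12]
  -- the homomorphism from type `B₃`
  obtain ⟨Φ, hΦ⟩ := lift b3 (fun i : Fin 3 => if i = 0 then x2 else if i = 1 then x1 else
    P * (x1 * x2)⁻¹) (by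
      have e1 := id_ac X12 P1
      have e2 := id_bc X12 P1 P2 P3
      intro s t _
      fin_cases s <;> fin_cases t
      · rfl
      · show alt 3 x2 x1 = alt 3 x1 x2
        rw [alt_three, alt_three, X12]
      · show alt 2 x2 (P * (x1 * x2)⁻¹) = alt 2 (P * (x1 * x2)⁻¹) x2
        rw [alt_two, alt_two, e1]
      · show alt 3 x1 x2 = alt 3 x2 x1
        rw [alt_three, alt_three, X12]
      · rfl
      · show alt 4 x1 (P * (x1 * x2)⁻¹) = alt 4 (P * (x1 * x2)⁻¹) x1
        rw [alt_four, alt_four, e2]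
      · show alt 2 (P * (x1 * x2)⁻¹) x2 = alt 2 x2 (P * (x1 * x2)⁻¹)
        rw [alt_two, alt_two, e1]
      · show alt 4 (P * (x1 * x2)⁻¹) x1 = alt 4 x1 (P * (x1 * x2)⁻¹)
        rw [alt_four, alt_four, e2]
      · rfl)
  have Φ0 : Φ (gen b3 0) = x2 := by rw [hΦ]; rfl
  have Φ1 : Φ (gen b3 1) = x1 := by rw [hΦ]; rfl
  have Φ2 : Φ (gen b3 2) = P * (x1 * x2)⁻¹ := by rw [hΦ]; rfl
  -- the relations in type `B₃`
  set A := gen b3 0 with hA
  set B := gen b3 1 with hBdef
  set C := gen b3 2 with hC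
  have hAB : A * B * A = B * A * B := by
    have := relHolds b3 0 1 (by decide)
    have h3 : b3.M 0 1 = 3 := by decide
    rwa [h3, alt_three, alt_three] at this
  have hBC : B * C * B * C = C * B * C * B := by
    have := relHolds b3 1 2 (by decide)
    have h3 : b3.M 1 2 = 4 := by decide
    rwa [h3, alt_four, alt_four] at this
  have hAC : A * C = C * A := by
    have := relHolds b3 0 2 (by decide)
    have h3 : b3.M 0 2 = 2 := by decide
    rwa [h3, alt_two, alt_two] at this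
  set ρ := C * B * A with hρ
  have c1 : ρ * B = A * ρ := rho1 hAB hAC
  have c2 : ρ * ρ * A = B * ρ * ρ := rho2 hAB hBC hAC
  set A0 := ρ * A * ρ⁻¹ with hA0
  have d1 : ρ * B * ρ⁻¹ = A := by rw [c1]; group
  have d2 : ρ * A0 * ρ⁻¹ = B := by
    calc ρ * A0 * ρ⁻¹ = (ρ * ρ * A) * ρ⁻¹ * ρ⁻¹ := by rw [hA0]; group
      _ = (B * ρ * ρ) * ρ⁻¹ * ρ⁻¹ := by rw [c2]
      _ = B := by group
  have b1 : A * A0 * A = A0 * A * A0 := by
    calc A * A0 * A = (ρ * B * ρ⁻¹) * (ρ * A * ρ⁻¹) * (ρ * B * ρ⁻¹) := by rw [d1]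
      _ = ρ * (B * A * B) * ρ⁻¹ := by group
      _ = ρ * (A * B * A) * ρ⁻¹ := by rw [hAB]
      _ = (ρ * A * ρ⁻¹) * (ρ * B * ρ⁻¹) * (ρ * A * ρ⁻¹) := by group
      _ = A0 * A * A0 := by rw [d1]
  have b2 : B * A0 * B = A0 * B * A0 := by
    calc B * A0 * B = (ρ * A0 * ρ⁻¹) * (ρ * A * ρ⁻¹) * (ρ * A0 * ρ⁻¹) := by rw [d2]
      _ = ρ * (A0 * A * A0) * ρ⁻¹ := by group
      _ = ρ * (A * A0 * A) * ρ⁻¹ := by rw [b1]
      _ = (ρ * A * ρ⁻¹) * (ρ * A0 * ρ⁻¹) * (ρ * A * ρ⁻¹) := by group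
      _ = A0 * B * A0 := by rw [d2]
  obtain ⟨Ψ, Ψ1, Ψ2, Ψ3⟩ := key B A A0 hAB.symm b1 b2
  -- the composition is the inclusion
  have hΦρ : Φ ρ = P := by
    rw [hρ, map_mul, map_mul, Φ0, Φ1, Φ2]
    group
  have hcomp : Φ.comp Ψ = SemidirectProduct.inl := by
    apply ext3
    · rw [MonoidHom.comp_apply, Ψ1, Φ1]
    · rw [MonoidHom.comp_apply, Ψ2, Φ0]
    · rw [MonoidHom.comp_apply, Ψ3, hA0, map_mul, map_mul, map_inv, Φ0, hΦρ, P2, mul_assoc,
        mul_inv_cancel, mul_one]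
  have hinj : Function.Injective Ψ := by
    intro x y hxy
    have h1 := congrArg Φ hxy
    rw [← MonoidHom.comp_apply, ← MonoidHom.comp_apply, hcomp] at h1
    exact SemidirectProduct.inl_injective h1
  refine H51.rf_of_injective Ψ hinj ?_
  exact hB b3 0 1 2 (by decide) (by decide) (by decide) (by decide) (by decide) (by decide)
    (by decide)

end H69
end Art
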